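import Pool.Agent.N905.EX.Law

set_option autoImplicit false

/-! The number of starting points with a large excursion, with the explicit exponent `0.06`. -/

namespace Pool.Agent.Results.MP_0a5adf_nt.ExcursionsExplicit

open Pool.Agent.TH930.LT Pool.Agent.N905.EX

/-- the accelerated `3x+1` map -/
def T (n : ℕ) : ℕ := if n % 2 = 0 then n / 2 else (3 * n + 1) / 2

/-- within `B log n` steps the trajectory of `n` reaches a value `≤ y`, and it stays `≤ V` until then -/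
def DescendsBelow (B y V : ℝ) (n : ℕ) : Prop :=
  ∃ m : ℕ, (m : ℝ) ≤ B * Real.log n ∧ ((T^[m] n : ℕ) : ℝ) ≤ y ∧ ∀ j ≤ m, ((T^[j] n : ℕ) : ℝ) ≤ V

/-- the number of positive integers `n ≤ x` with the property `P` -/
noncomputable def count (P : ℕ → Prop) (x : ℝ) : ℝ := ({n : ℕ | 1 ≤ n ∧ (n : ℝ) ≤ x ∧ P n}.ncard : ℝ)

lemma T_eq : T = Pool.Agent.Helper894.Collatz.T := rfl

lemma exc_iff {B y V : ℝ} {n : ℕ} : ¬ DescendsBelow B y V n ↔ excBad B y V n := by
  unfold DescendsBelow excBad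
  rw [T_eq, not_iff_not]
  apply exists_congr
  intro m
  tauto

/-- There are `B` and `C` such that for all `x ≥ 2`, `y ≥ 1` and `V ≥ x` all but
`C (log x)^4 (x^2 / V + x / y^0.06)` of the `n ≤ x` reach a value `≤ y` within `B log n` steps and stay
`≤ V` until then. -/
theorem result : ∃ B C : ℝ, 0 < B ∧ 0 < C ∧ ∀ x y V : ℝ, 2 ≤ x → 1 ≤ y → x ≤ V →
      count (fun n => ¬ DescendsBelow B y V n) x ≤
        C * Real.log x ^ 4 * (x ^ 2 / V + x / y ^ (6 / 100 : ℝ)) := by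
  obtain ⟨a, C₁, ha0, -, hC₁, hQ⟩ := card_Ps
  obtain ⟨C₂, hC₂, hW⟩ := card_Wx
  have e94 : (1 : ℝ) - 6 / 100 = 94 / 100 := by norm_num
  obtain ⟨C, hC, h⟩ := exc_law (c := 6 / 100) (B := 2 / a) ha0 hC₁ hC₂
    (fun i => by rw [e94]; exact hQ i) (fun V hV i => by rw [e94]; exact hW V hV i)
    (by positivity) (by rw [div_mul_cancel₀ _ ha0.ne']; norm_num) (by norm_num) (by norm_num)
  refine ⟨2 / a, C, by positivity, hC, fun x y V hx hy hV => ?_⟩
  rw [add_comm (x ^ 2 / V)]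
  refine le_trans (le_of_eq ?_) (h x y V hx hy hV)
  unfold count
  congr 2
  ext n
  simp only [Set.mem_ofPred_eq]
  constructor
  · rintro ⟨h1, h2, h3⟩
    exact ⟨h1, h2, exc_iff.1 h3⟩
  · rintro ⟨h1, h2, h3⟩
    exact ⟨h1, h2, exc_iff.2 h3⟩

end Pool.Agent.Results.MP_0a5adf_nt.ExcursionsExplicit
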