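import Mathlib
import Pool.Agent.N909.CX.Low
import Pool.Agent.N909.CL.Vl
import Pool.Agent.N388.CX.X0
import Pool.Agent.N562.CX.One
import Pool.Agent.N189.CX.X2
import Pool.Agent.N324.CX.X3
import Pool.Agent.N655.CX.X4
import Pool.Agent.N169.CX.X5
import Pool.Agent.N374.CX.CX6
import Pool.Agent.N328.CX.X7
import Pool.Agent.N43.CX.X8

set_option autoImplicit false

/-!
# Largest values in random Collatz maps

In the fair random Collatz map every integer `n` goes up to `⌊(3n+1)/2⌋` or down to `⌊n/2⌋` with probability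
`1/2`, independently (one map, all trajectories follow it and merge).  Let `t(n)` be the largest value of the
trajectory of `n`.  Almost surely `t(n)` is finite for all `n`, `t(n) > C n² log n` infinitely often, for every
`C`, so `t(n) ≤ C n²` fails in this model, and `t(n) ≤ n² (log n)^(1+ε)` for all large `n`.  In every random
Collatz map whose conditional probabilities of going up, given the earlier decisions, tend to `1/2` uniformly
(no independence, no rate) the exponent of the largest values is still exactly `2`.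

The parts of the proof in `Pool/Agent/N<k>/CX` are due to helpers 388, 562, 189, 324, 655, 169, 374, 328 with 91,
43, those in `N<k>/CL` to helpers 196, 433, 950, 645, 868, 499, 18, 434, 694, 624, 744.
-/

open MeasureTheory Filter ProbabilityTheory
open scoped Topology

namespace Pool.Agent.Results.MP_0a5adf_nt.LargestValuesRandomMaps

/-- the Collatz map in which the elements of `S` go up -/
noncomputable def colT (S : Set ℕ) (n : ℕ) : ℕ :=
  open Classical in if n ∈ S then (3 * n + 1) / 2 else n / 2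

/-- the trajectory of `n` -/
def traj (S : Set ℕ) (n : ℕ) : Set ℕ := Set.range (fun i => (colT S)^[i] n)

/-- the maximum excursion of `n` (used for finite trajectories) -/
noncomputable def exc (S : Set ℕ) (n : ℕ) : ℕ := sSup (traj S n)

open Pool.Agent.R528.RM Pool.Agent.N909.CM Pool.Agent.N909.CX

lemma s0 : Stm0 := Pool.Agent.N388.CX.X0.t
lemma s1 : Stm1 := Pool.Agent.N562.CX.t
lemma s2 : Stm2 := Pool.Agent.N189.CX.t s0
lemma s3 : Stm3 := Pool.Agent.N324.CX.t s0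
lemma s4 : Stm4 := Pool.Agent.N655.CX.X4.t s0
lemma s5 : Stm5 := Pool.Agent.N169.CX.t
lemma s6 : Stm6 := Pool.Agent.N374.CX6.t
lemma s7 : Stm7 := Pool.Agent.N328.CX.t
lemma s8 : Stm8 := Pool.Agent.N43.CX8.t s5

variable {Ω : Type} {B : ℕ → Set Ω}

lemma colT_eq (ω : Ω) : colT {n | ω ∈ B n} = T B ω := by
  funext n
  unfold colT T
  simp only [Set.mem_ofPred_eq]

lemma traj_eq (ω : Ω) (n : ℕ) : traj {n | ω ∈ B n} n = orb (T B ω) n := by
  unfold traj orb
  rw [colT_eq]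

lemma exc_mem {S : Set ℕ} {n : ℕ} (h : (traj S n).Finite) : exc S n ∈ traj S n :=
  Nat.sSup_mem ⟨n, 0, rfl⟩ h.bddAbove

lemma le_exc {S : Set ℕ} {n x : ℕ} (h : (traj S n).Finite) (hx : x ∈ traj S n) : x ≤ exc S n :=
  le_csSup h.bddAbove hx

/-- the fair map -/
theorem fair {Ω : Type} {m0 : MeasurableSpace Ω} (μ : Measure Ω) [IsProbabilityMeasure μ]
    (B : ℕ → Set Ω) (hB : ∀ n, MeasurableSet (B n)) (hi : iIndepSet B μ) (hp : ∀ n, μ.real (B n) = 1 / 2) :
    ∀ᵐ ω ∂μ, (∀ n, (traj {k | ω ∈ B k} n).Finite) ∧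
      (∀ C : ℝ, ∃ᶠ n : ℕ in atTop, C * (n : ℝ) ^ 2 * Real.log n < exc {k | ω ∈ B k} n) ∧
      (¬ ∃ C : ℝ, ∀ n : ℕ, 1 ≤ n → (exc {k | ω ∈ B k} n : ℝ) ≤ C * (n : ℝ) ^ 2) ∧
      ∀ ε : ℝ, 0 < ε → ∀ᶠ n : ℕ in atTop, (exc {k | ω ∈ B k} n : ℝ) ≤ (n : ℝ) ^ 2 * Real.log n ^ (1 + ε) := by
  have hlog : Tendsto (fun n : ℕ => Real.log n) atTop atTop := Real.tendsto_log_atTop.comp tendsto_natCast_atTop_atTop
  have h1 : ∀ᵐ ω ∂μ, ∀ C : ℕ, ∃ᶠ n : ℕ in atTop, ∃ x ∈ orb (T B ω) n, ((C + 1 : ℕ) : ℝ) * (n : ℝ) ^ 2 * Real.log n ≤ x :=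
    ae_all_iff.2 fun C => lower s2 s1 s3 s4 s5 s6 s7 μ B hB hi hp (by omega)
  have h2 : ∀ᵐ ω ∂μ, ∀ m : ℕ, (∀ n, (orb (T B ω) n).Finite) ∧
      ∀ᶠ n : ℕ in atTop, ∀ x ∈ orb (T B ω) n, (x : ℝ) ≤ (n : ℝ) ^ 2 * Real.log n ^ (1 + 1 / ((m : ℝ) + 1)) :=
    ae_all_iff.2 fun m => s8 μ B hB hi hp (1 / ((m : ℝ) + 1)) (by positivity)
  filter_upwards [h1, h2] with ω g1 g2
  have hfin : ∀ n, (traj {k | ω ∈ B k} n).Finite := fun n => by rw [traj_eq]; exact (g2 0).1 n
  have hfreq : ∀ C : ℝ, ∃ᶠ n : ℕ in atTop, C * (n : ℝ) ^ 2 * Real.log n < exc {k | ω ∈ B k} n := by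
    intro C
    obtain ⟨K, hK⟩ := exists_nat_gt C
    refine ((g1 K).and_eventually ((eventually_ge_atTop 1).and (hlog.eventually_gt_atTop 0))).mono ?_
    rintro n ⟨⟨x, hx, hxle⟩, hn1, hn2⟩
    have hx' : x ≤ exc {k | ω ∈ B k} n := le_exc (hfin n) (by rw [traj_eq]; exact hx)
    have hx'' : (x : ℝ) ≤ exc {k | ω ∈ B k} n := by exact_mod_cast hx'
    have hn0 : (0 : ℝ) < n := by exact_mod_cast (by omega : 0 < n)
    have h3 : C * (n : ℝ) ^ 2 * Real.log n < ((K + 1 : ℕ) : ℝ) * (n : ℝ) ^ 2 * Real.log n := by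
      apply mul_lt_mul_of_pos_right _ hn2
      apply mul_lt_mul_of_pos_right _ (by positivity)
      push_cast
      linarith
    linarith
  refine ⟨hfin, hfreq, ?_, ?_⟩
  · rintro ⟨C, hC⟩
    obtain ⟨n, h3, h4, h5⟩ := ((hfreq (|C|)).and_eventually ((eventually_ge_atTop 1).and (hlog.eventually_ge_atTop 1))).exists
    have h6 := hC n h4
    have h7 : C * (n : ℝ) ^ 2 ≤ |C| * (n : ℝ) ^ 2 * Real.log n := by
      have h8 : C * (n : ℝ) ^ 2 ≤ |C| * (n : ℝ) ^ 2 := mul_le_mul_of_nonneg_right (le_abs_self C) (by positivity)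
      have h9 : 0 ≤ |C| * (n : ℝ) ^ 2 := by positivity
      nlinarith
    linarith
  · intro ε hε
    obtain ⟨m, hm⟩ := exists_nat_one_div_lt hε
    filter_upwards [(g2 m).2, hlog.eventually_ge_atTop 1] with n h3 h4
    have h5 := h3 (exc {k | ω ∈ B k} n) (by rw [← traj_eq]; exact exc_mem (hfin n))
    refine h5.trans (mul_le_mul_of_nonneg_left ?_ (by positivity))
    exact Real.rpow_le_rpow_of_exponent_le h4 (by linarith)

/-- the largest value of a trajectory with starting value at most `x` -/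
noncomputable def maxExc (S : Set ℕ) (x : ℕ) : ℕ := (Finset.range (x + 1)).sup (exc S)

lemma log_nat_mono {a b : ℕ} (h : a ≤ b) : Real.log a ≤ Real.log b := by
  rcases Nat.eq_zero_or_pos a with h0 | h0
  · rw [h0, Nat.cast_zero, Real.log_zero]
    exact Real.log_natCast_nonneg b
  · exact Real.log_le_log (by exact_mod_cast h0) (by exact_mod_cast h)

theorem general {Ω : Type} {m0 : MeasurableSpace Ω} (μ : Measure Ω) [IsProbabilityMeasure μ]
    (ℱ : Filtration ℕ m0) (B : ℕ → Set Ω) (hB : ∀ n, MeasurableSet[ℱ n] (B n))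
    (hd : ∀ η : ℝ, 0 < η → ∀ᶠ n : ℕ in atTop, ∀ᵐ ω ∂μ,
        |(μ[(B (n + 1)).indicator (fun _ => (1 : ℝ)) | ℱ n]) ω - 1 / 2| ≤ η) :
    ∀ᵐ ω ∂μ, (∀ n, (traj {k | ω ∈ B k} n).Finite) ∧
      limsup (fun n : ℕ => Real.log (exc {k | ω ∈ B k} n) / Real.log n) atTop = 2 ∧
      Tendsto (fun x : ℕ => Real.log (maxExc {k | ω ∈ B k} x) / Real.log x) atTop (𝓝 2) := by
  filter_upwards [Pool.Agent.N909.CL.val_all (μ := μ) (ℱ := ℱ) (B := B) hB hd] with ω hω
  obtain ⟨g0, g1⟩ := hω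
  have hfin : ∀ n, (traj {k | ω ∈ B k} n).Finite := fun n => by rw [traj_eq]; exact g0 n
  obtain ⟨g2, g3⟩ := g1 (exc {k | ω ∈ B k}) (fun n => by rw [← traj_eq]; exact exc_mem (hfin n))
    (fun n x hx => le_exc (hfin n) (by rw [traj_eq]; exact hx))
  refine ⟨hfin, Pool.Agent.N909.CL.limsup_of (by norm_num) (fun n => Real.log_natCast_nonneg _) g2 g3, ?_⟩
  refine Pool.Agent.N909.CL.max_lim (h := fun n => Real.log (exc {k | ω ∈ B k} n)) (by norm_num) ?_ ?_ g2 g3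
  · intro x n hn
    exact log_nat_mono (Finset.le_sup (f := exc {k | ω ∈ B k}) (Finset.mem_range.2 (by omega)))
  · intro x
    obtain ⟨n, hn, h⟩ := Finset.exists_mem_eq_sup (Finset.range (x + 1)) ⟨0, by simp⟩ (exc {k | ω ∈ B k})
    refine ⟨n, by rw [Finset.mem_range] at hn; omega, ?_⟩
    unfold maxExc
    rw [h]

/-- **Largest values in random Collatz maps.**  (1) Let `B n` (`n` goes up) be independent events of
probability `1/2`.  Almost surely all trajectories are finite, for every `C` the excursion `t(n)` exceeds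
`C n² log n` for infinitely many `n` (in particular there is no `C` with `t(n) ≤ C n²` for all `n ≥ 1`), and for
every `ε > 0` one has `t(n) ≤ n² (log n)^(1+ε)` for all large `n`.  (2) Let `(ℱ n)` be a filtration and
`B n ∈ ℱ n` events with `P(B (n+1) | ℱ n) → 1/2` uniformly.  Almost surely all trajectories are finite,
`limsup log t(n) / log n = 2`, and the largest `t(n)` with `n ≤ x` is `x^(2 + o(1))`. -/
theorem result :
    (∀ {Ω : Type} {m0 : MeasurableSpace Ω} (μ : Measure Ω) [IsProbabilityMeasure μ]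
      (B : ℕ → Set Ω), (∀ n, MeasurableSet (B n)) → iIndepSet B μ → (∀ n, μ.real (B n) = 1 / 2) →
      ∀ᵐ ω ∂μ, (∀ n, (traj {k | ω ∈ B k} n).Finite) ∧
        (∀ C : ℝ, ∃ᶠ n : ℕ in atTop, C * (n : ℝ) ^ 2 * Real.log n < exc {k | ω ∈ B k} n) ∧
        (¬ ∃ C : ℝ, ∀ n : ℕ, 1 ≤ n → (exc {k | ω ∈ B k} n : ℝ) ≤ C * (n : ℝ) ^ 2) ∧
        ∀ ε : ℝ, 0 < ε → ∀ᶠ n : ℕ in atTop, (exc {k | ω ∈ B k} n : ℝ) ≤ (n : ℝ) ^ 2 * Real.log n ^ (1 + ε)) ∧
    (∀ {Ω : Type} {m0 : MeasurableSpace Ω} (μ : Measure Ω) [IsProbabilityMeasure μ]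
      (ℱ : Filtration ℕ m0) (B : ℕ → Set Ω), (∀ n, MeasurableSet[ℱ n] (B n)) →
      (∀ η : ℝ, 0 < η → ∀ᶠ n : ℕ in atTop, ∀ᵐ ω ∂μ,
        |(μ[(B (n + 1)).indicator (fun _ => (1 : ℝ)) | ℱ n]) ω - 1 / 2| ≤ η) →
      ∀ᵐ ω ∂μ, (∀ n, (traj {k | ω ∈ B k} n).Finite) ∧
        limsup (fun n : ℕ => Real.log (exc {k | ω ∈ B k} n) / Real.log n) atTop = 2 ∧
        Tendsto (fun x : ℕ => Real.log (maxExc {k | ω ∈ B k} x) / Real.log x) atTop (𝓝 2)) :=
  ⟨fun μ _ B hB hi hp => fair μ B hB hi hp, fun μ _ ℱ B hB hd => general μ ℱ B hB hd⟩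

end Pool.Agent.Results.MP_0a5adf_nt.LargestValuesRandomMaps
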