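import Pool.Agent.N733.TG.K
import Pool.Agent.N481.MV.Two
import Pool.Agent.N905.EX.Law

/-!
# Excursions of the `3x+1` map near the values of multiplicative functions

Let `f` be a positive multiplicative function of at most polynomial growth such that `f p ≤ M p` for the large primes `p`,
with different values at different large primes; for example Euler's function or the sum of the divisors. Let `α > 0`,
`d ≥ 1`, `κ ≥ 0`, `0 < v ≤ 1` and `δ > 0` with `d (1 - min v (0.06 δ)) + κ < 1`. For all `m ≤ N` but `N / (log N)^U` EVERY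
integer `n ≥ 1` with `|n - α f(m)^d| ≤ f(m)^κ` reaches a value `≤ n^δ` within `B log n` steps and stays `≤ n^(1+v)` until then.
So the maximum excursion `t(n)` of `n` is at most `n^(1+v)`, or it is the one of some `u ≤ n^δ`; and if `t(u) ≤ C u^2` for this
`u`, then `t(n) ≤ max (n^(1+v)) (C n^(2 δ))`.

More generally `G (f m)` takes the place of `α f(m)^d`, where `G` is any function with steps bounded below by a positive
constant and growth at most `v^d`. The values of `f` are in general taken with very large multiplicities, and so this does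
not follow from the size of the exceptional set.

Proof. Write `m = k w` where `k` is composed of the primes `≤ z = N^(1 / J)`, `J` about `log log N`. For most `m` one has
`k ≤ N^η`, and `w` is a product of at most `J` different primes. So `f(w)` is taken at most `(1 + τ)^J` times, `τ` its number of
divisors, which is at most `N^o(1)` on average, even in mean square: and the exceptional set has only `x^(1 - min v (0.06 δ))`
elements up to `x`, up to powers of the logarithm, by the starting library of this problem with the explicit constant of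
helper905 (`Pool.Agent.N905.EX.Law`).
-/

set_option autoImplicit false

namespace Pool.Agent.Results.MP_0a5adf_nt.MultiplicativeValues

open Finset
open Pool.Agent.N733.TG (LM Expanding lm_totient lm_sigma keep_good expanding_pow)
open Pool.Agent.TH930.LT Pool.Agent.N905.EX

/-- the accelerated `3x+1` map -/
def T (n : ℕ) : ℕ := if n % 2 = 0 then n / 2 else (3 * n + 1) / 2

/-- within `B log n` steps the trajectory of `n` reaches a value `≤ y`, and it stays `≤ V` until then -/
def DescendsBelow (B y V : ℝ) (n : ℕ) : Prop :=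
  ∃ m : ℕ, (m : ℝ) ≤ B * Real.log n ∧ ((T^[m] n : ℕ) : ℝ) ≤ y ∧ ∀ j ≤ m, ((T^[j] n : ℕ) : ℝ) ≤ V

/-- the maximum excursion of `n` is at most `V` -/
def ExcursionLE (n : ℕ) (V : ℝ) : Prop := ∀ k, ((T^[k] n : ℕ) : ℝ) ≤ V

lemma T_eq : T = Pool.Agent.Helper894.Collatz.T := rfl

lemma exc_iff {B y V : ℝ} {n : ℕ} : ¬ DescendsBelow B y V n ↔ excBad B y V n := by
  unfold DescendsBelow excBad
  rw [T_eq, not_iff_not]
  apply exists_congr
  intro m
  tauto

lemma law : ∃ B C : ℝ, 0 < B ∧ 0 < C ∧ ∀ x y V : ℝ, 2 ≤ x → 1 ≤ y → x ≤ V →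
    ({n : ℕ | 1 ≤ n ∧ (n : ℝ) ≤ x ∧ ¬ DescendsBelow B y V n}.ncard : ℝ) ≤
      C * Real.log x ^ 4 * (x ^ 2 / V + x / y ^ (6 / 100 : ℝ)) := by
  obtain ⟨a, C₁, ha0, -, hC₁, hQ⟩ := card_Ps
  obtain ⟨C₂, hC₂, hW⟩ := card_Wx
  have e94 : (1 : ℝ) - 6 / 100 = 94 / 100 := by norm_num
  obtain ⟨C, hC, h⟩ := exc_law (c := 6 / 100) (B := 2 / a) ha0 hC₁ hC₂
    (fun i => by rw [e94]; exact hQ i) (fun V hV i => by rw [e94]; exact hW V hV i)
    (by positivity) (by rw [div_mul_cancel₀ _ ha0.ne']; norm_num) (by norm_num) (by norm_num)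
  refine ⟨2 / a, C, by positivity, hC, fun x y V hx hy hV => ?_⟩
  rw [add_comm (x ^ 2 / V)]
  refine le_trans (le_of_eq ?_) (h x y V hx hy hV)
  congr 2
  ext n
  simp only [Set.mem_ofPred_eq]
  constructor
  · rintro ⟨h1, h2, h3⟩
    exact ⟨h1, h2, exc_iff.1 h3⟩
  · rintro ⟨h1, h2, h3⟩
    exact ⟨h1, h2, exc_iff.2 h3⟩

lemma mono {B y y' V V' : ℝ} {n : ℕ} (hy : y ≤ y') (hV : V ≤ V') (h : DescendsBelow B y V n) :
    DescendsBelow B y' V' n := by
  obtain ⟨m, h1, h2, h3⟩ := h
  exact ⟨m, h1, h2.trans hy, fun j hj => (h3 j hj).trans hV⟩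

/-- **Excursions near the values of multiplicative functions.** There is `B` such that for all `f`
multiplicative and positive, of at most polynomial growth, with `f p ≤ M p` at the large primes, and injective there, all `G`
with steps `≥ const > 0` and growth at most `v^d`, all `0 < v ≤ 1`, `δ > 0`, `κ ≥ 0` with `d (1 - min v (0.06 δ)) + κ < 1` and all
`U`: for all large `N`, for all `m ≤ N` but `N / (log N)^U`, EVERY integer `n ≥ 1` with `|n - G (f m)| ≤ f(m)^κ` reaches a value
`≤ n^δ` within `B log n` steps and stays `≤ n^(1+v)` until then. If `n` has this property then for some `u ≤ n^δ` in its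
trajectory and all `V ≥ n^(1+v)` the maximum excursion of `n` is `≤ V` if and only if the one of `u` is. Euler's function and
the sum of the divisors are examples of such functions `f`, and `α v^d` with `α > 0`, `d ≥ 1` is an example of `G`. -/
theorem result :
    (∃ B : ℝ, 0 < B ∧
      ∀ f : ℕ → ℕ, LM f → ∀ (G : ℕ → ℝ) (d : ℝ), Expanding G d → ∀ v δ κ : ℝ, 0 < v → v ≤ 1 → 0 < δ → 0 ≤ κ →
        d * (1 - min v (6 / 100 * δ)) + κ < 1 → ∀ U : ℕ, ∃ N₀ : ℕ, ∀ N : ℕ, N₀ ≤ N →
          ({m : ℕ | 1 ≤ m ∧ m ≤ N ∧ ¬ ∀ n : ℕ, 1 ≤ n → |(n : ℝ) - G (f m)| ≤ (f m : ℝ) ^ κ →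
            DescendsBelow B ((n : ℝ) ^ δ) ((n : ℝ) ^ (1 + v)) n}.ncard : ℝ) ≤ N / Real.log N ^ U) ∧
    (∀ (B v δ : ℝ) (n : ℕ), DescendsBelow B ((n : ℝ) ^ δ) ((n : ℝ) ^ (1 + v)) n →
      ∃ u k : ℕ, T^[k] n = u ∧ (u : ℝ) ≤ (n : ℝ) ^ δ ∧
        ∀ V : ℝ, (n : ℝ) ^ (1 + v) ≤ V → (ExcursionLE n V ↔ ExcursionLE u V)) ∧
    (LM Nat.totient ∧ LM (fun m => ∑ d ∈ m.divisors, d)) ∧
    ∀ α d : ℝ, 0 < α → 1 ≤ d → Expanding (fun v => α * (v : ℝ) ^ d) d := by
  obtain ⟨B, C, hB, hC, law⟩ := law
  refine ⟨⟨B, hB, fun f hf G d hG v δ κ hv hv1 hδ hκ h1 U => ?_⟩, ?_, ⟨lm_totient, lm_sigma⟩,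
    fun α d hα hd => expanding_pow hα hd⟩
  · exact keep_good (fun n : ℕ => 1 ≤ n) (fun n => DescendsBelow B ((n : ℝ) ^ δ) ((n : ℝ) ^ (1 + v)) n)
      (fun n : ℕ => (n : ℝ)) hf hG (s := 1 - min v (6 / 100 * δ)) (κ := κ) (by linarith [min_le_left v (6 / 100 * δ)]) hκ h1
      (Pool.Agent.N481.MV.two_scale (Bad := fun y V n => ¬ DescendsBelow B y V n) hv hv1 hδ hC.le
        (fun y y' V V' n hy hV h h' => h (mono hy hV h')) (fun x y V hx hy hV => law x y V hx hy hV)) U
  · rintro B v δ n ⟨m, h1, h2, h3⟩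
    refine ⟨T^[m] n, m, rfl, h2, fun V hV => ⟨fun h k => ?_, fun h k => ?_⟩⟩
    · rw [← Function.iterate_add_apply]
      exact h _
    · rcases Nat.lt_or_ge k m with hk | hk
      · exact (h3 k hk.le).trans hV
      · have h4 := h (k - m)
        rw [← Function.iterate_add_apply, Nat.sub_add_cancel hk] at h4
        exact h4

end Pool.Agent.Results.MP_0a5adf_nt.MultiplicativeValues
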